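import Mathlib

set_option autoImplicit false

/-! # MP_e7d22a_nt, Q1: unions of rotated triangular lattices which are dense forests

The plane is `ℂ`. -/

open Set Filter Topology MeasureTheory Complex

namespace Pool.Agent.Results.MP_e7d22a_nt.TwoLattices

/-- The second generator `(1/2, √3/2)` of the triangular lattice. -/
noncomputable def om : ℂ := ⟨1 / 2, Real.sqrt 3 / 2⟩

/-- The triangular lattice. -/
def Lam : Set ℂ := {z | ∃ m n : ℤ, z = m + n * om}

/-- The union of the lattices `r_{θ i} Λ + x i`. -/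
def TBG {k : ℕ} (θ : Fin k → ℝ) (x : Fin k → ℂ) : Set ℂ :=
  {y | ∃ i : Fin k, ∃ z ∈ Lam, y = Complex.exp (θ i * I) * z + x i}

/-- Dense forests: every segment `[a, a + V ε • u]`, `‖u‖ = 1`, contains a point at distance at most
`ε` from `Y`. -/
def IsDenseForest (Y : Set ℂ) : Prop :=
  ∃ V : ℝ → ℝ, ∀ ε : ℝ, 0 < ε → ε < 1 → 0 < V ε ∧
    ∀ a u : ℂ, ‖u‖ = 1 → ∃ s : ℝ, 0 ≤ s ∧ s ≤ V ε ∧ ∃ y ∈ Y, dist (a + s * u) y ≤ ε

/-- The lattices `r_{θ i} Λ` have a common rational direction. -/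
def CommonDirection {k : ℕ} (θ : Fin k → ℝ) : Prop :=
  ∃ v : ℂ, v ≠ 0 ∧ ∀ i : Fin k, ∃ z ∈ Lam, ∃ r : ℝ, v = r * (Complex.exp (θ i * I) * z)

lemma irr_dense {γ : ℝ} (hγ : Irrational γ) {ε : ℝ} (hε : 0 < ε) :
    ∃ N : ℕ, ∀ c : ℝ, ∃ m : ℕ, m ≤ N ∧ ∃ n : ℤ, |c + m * γ - n| ≤ ε := by
  obtain ⟨M, hM⟩ := exists_nat_gt (1 / ε)
  have hM0 : 0 < M := by
    have : (0 : ℝ) < M := lt_trans (by positivity) hM
    exact_mod_cast this
  obtain ⟨p, q, hq0, hqM, hpq⟩ := Real.exists_int_int_abs_mul_sub_le γ hM0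
  set η : ℝ := q * γ - p with hη
  have hη0 : η ≠ 0 := by
    intro h
    have hq' : (q : ℝ) ≠ 0 := by exact_mod_cast hq0.ne'
    have : γ = (p : ℝ) / q := by
      rw [eq_div_iff hq']; linarith
    apply hγ
    exact ⟨(p : ℚ) / q, by rw [this]; push_cast; rfl⟩
  have hηε : |η| ≤ ε := by
    refine hpq.trans ?_
    have h1 : (0 : ℝ) < M := by exact_mod_cast hM0
    rw [div_le_iff₀ (by positivity)]
    have : 1 < M * ε := by rwa [div_lt_iff₀ hε] at hM
    nlinarith
  have hηpos : 0 < |η| := abs_pos.2 hη0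
  obtain ⟨J, hJ⟩ := exists_nat_gt (1 / |η|)
  lift q to ℕ using hq0.le
  refine ⟨q * J, fun c => ?_⟩
  -- a general step
  have key : ∀ x : ℝ, 0 ≤ x → x ≤ 1 → ∃ j : ℕ, j ≤ J ∧ |x - j * (|η|)| ≤ |η| := by
    intro x hx0 hx1
    refine ⟨⌊x / |η|⌋₊, ?_, ?_⟩
    · have h1 : x / |η| ≤ 1 / |η| := by gcongr
      have h2 : (⌊x / |η|⌋₊ : ℝ) ≤ x / |η| := Nat.floor_le (by positivity)
      have : (⌊x / |η|⌋₊ : ℝ) ≤ J := by linarith
      exact_mod_cast this
    · have h2 : (⌊x / |η|⌋₊ : ℝ) ≤ x / |η| := Nat.floor_le (by positivity)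
      have h3 : x / |η| < ⌊x / |η|⌋₊ + 1 := Nat.lt_floor_add_one _
      rw [le_div_iff₀ hηpos] at h2
      rw [div_lt_iff₀ hηpos] at h3
      rw [abs_le]
      constructor <;> nlinarith
  rcases lt_or_gt_of_ne hη0 with hneg | hpos
  · -- η < 0 : go down to the floor
    obtain ⟨j, hj, h1⟩ := key (c - ⌊c⌋) (by linarith [Int.floor_le c])
      (by linarith [Int.lt_floor_add_one c])
    refine ⟨q * j, Nat.mul_le_mul_left q hj, ⌊c⌋ + j * p, ?_⟩
    have e : c + ((q * j : ℕ) : ℝ) * γ - ((⌊c⌋ + j * p : ℤ) : ℝ) = (c - ⌊c⌋) - j * |η| := by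
      rw [abs_of_neg hneg, hη]; push_cast; ring
    rw [e]
    exact h1.trans hηε
  · obtain ⟨j, hj, h1⟩ := key (⌈c⌉ - c) (by linarith [Int.le_ceil c])
      (by linarith [Int.ceil_lt_add_one c])
    refine ⟨q * j, Nat.mul_le_mul_left q hj, ⌈c⌉ + j * p, ?_⟩
    have e : c + ((q * j : ℕ) : ℝ) * γ - ((⌈c⌉ + j * p : ℤ) : ℝ) = -((⌈c⌉ - c) - j * |η|) := by
      rw [abs_of_pos hpos, hη]; push_cast; ring
    rw [e, abs_neg]
    exact h1.trans hηε

lemma sqrt3 : Real.sqrt 3 ^ 2 = 3 := Real.sq_sqrt (by norm_num)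
lemma sqrt3_pos : 0 < Real.sqrt 3 := Real.sqrt_pos.2 (by norm_num)

/-- coordinates with respect to `1`, `om` -/
lemma coords (z : ℂ) : z = ((z.re - z.im / Real.sqrt 3 : ℝ) : ℂ) + ((2 * z.im / Real.sqrt 3 : ℝ) : ℂ) * om := by
  have h := sqrt3_pos
  apply Complex.ext
  · simp [om]; field_simp; ring
  · simp [om]; field_simp

lemma norm_om : ‖om‖ = 1 := by
  have h : ‖om‖ ^ 2 = 1 := by
    rw [← Complex.normSq_eq_norm_sq, Complex.normSq_apply]
    simp only [om]
    have := sqrt3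
    nlinarith
  nlinarith [norm_nonneg om]

/-- A line of irrational direction comes close to the lattice in bounded time. -/
lemma line_dense {u : ℂ} (hirr : ∀ z ∈ Lam, ∀ r : ℝ, u ≠ r * z) {ε : ℝ} (hε : 0 < ε) :
    ∃ V : ℝ, 0 < V ∧ ∀ a : ℂ, ∃ s : ℝ, 0 ≤ s ∧ s ≤ V ∧ ∃ z ∈ Lam, dist (a + s * u) z ≤ ε := by
  set u1 : ℝ := u.re - u.im / Real.sqrt 3 with hu1
  set u2 : ℝ := 2 * u.im / Real.sqrt 3 with hu2
  have hu' : u = (u1 : ℂ) + (u2 : ℂ) * om := coords u
  have h1 : u1 ≠ 0 := by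
    intro h
    apply hirr om ⟨0, 1, by simp⟩ u2
    conv_lhs => rw [hu', h]
    simp
  have hγ : Irrational (u2 / u1) := by
    rintro ⟨q, hq⟩
    apply hirr (q.den + q.num * om) ⟨q.den, q.num, by simp⟩ (u1 / q.den)
    have hd : (q.den : ℂ) ≠ 0 := by exact_mod_cast q.den_ne_zero
    have hq2 : u2 = u1 * (q.num / q.den) := by
      rw [eq_div_iff h1] at hq
      rw [← hq, Rat.cast_def]; ring
    conv_lhs => rw [hu', hq2]
    push_cast
    field_simp
  obtain ⟨N, hN⟩ := irr_dense hγ hε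
  have hu1pos : 0 < |u1| := abs_pos.2 h1
  refine ⟨(N + 1) / |u1|, by positivity, fun a => ?_⟩
  set a1 : ℝ := a.re - a.im / Real.sqrt 3 with ha1
  set a2 : ℝ := 2 * a.im / Real.sqrt 3 with ha2
  have ha' : a = (a1 : ℂ) + (a2 : ℂ) * om := coords a
  have hbound : ∀ (m : ℤ) (n : ℤ) (s : ℝ), a1 + s * u1 = m → |a2 + s * u2 - n| ≤ ε →
      dist (a + s * u) (m + n * om) ≤ ε := by
    intro m n s h2 h3
    have e : a + s * u - (m + n * om) = ((a2 + s * u2 - n : ℝ) : ℂ) * om := by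
      conv_lhs => rw [ha', hu']
      have : (m : ℂ) = ((a1 + s * u1 : ℝ) : ℂ) := by rw [h2]; simp
      rw [this]; push_cast; ring
    rw [dist_eq_norm, e, norm_mul, norm_om, mul_one, Complex.norm_real]
    exact h3
  rcases lt_or_gt_of_ne h1 with hneg | hpos
  · -- go down
    obtain ⟨m, hm, n, hn⟩ := hN (-(a2 + (⌊a1⌋ - a1) / u1 * u2))
    refine ⟨(⌊a1⌋ - m - a1) / u1, ?_, ?_, _, ⟨⌊a1⌋ - m, -n, rfl⟩, ?_⟩
    · apply div_nonneg_of_nonpos _ hneg.le
      have := Int.floor_le a1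
      have h4 : (0 : ℝ) ≤ m := Nat.cast_nonneg m
      linarith
    · rw [abs_of_neg hneg, ← neg_div_neg_eq]
      apply div_le_div_of_nonneg_right _ (by linarith)
      have := Int.lt_floor_add_one a1
      have h4 : (m : ℝ) ≤ N := by exact_mod_cast hm
      linarith
    · apply hbound
      · push_cast; field_simp; ring
      · have e : a2 + (⌊a1⌋ - m - a1) / u1 * u2 - ((-n : ℤ) : ℝ) =
            -(-(a2 + (⌊a1⌋ - a1) / u1 * u2) + m * (u2 / u1) - n) := by
          push_cast; field_simp; ring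
        rw [e, abs_neg]; exact hn
  · obtain ⟨m, hm, n, hn⟩ := hN (a2 + (⌈a1⌉ - a1) / u1 * u2)
    refine ⟨(⌈a1⌉ + m - a1) / u1, ?_, ?_, _, ⟨⌈a1⌉ + m, n, rfl⟩, ?_⟩
    · apply div_nonneg _ hpos.le
      have := Int.le_ceil a1
      have h4 : (0 : ℝ) ≤ m := Nat.cast_nonneg m
      linarith
    · rw [abs_of_pos hpos]
      gcongr
      have := Int.ceil_lt_add_one a1
      have h4 : (m : ℝ) ≤ N := by exact_mod_cast hm
      linarith
    · apply hbound
      · push_cast; field_simp; ring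
      · have e : a2 + (⌈a1⌉ + m - a1) / u1 * u2 - (n : ℝ) =
            (a2 + (⌈a1⌉ - a1) / u1 * u2) + m * (u2 / u1) - n := by
          field_simp; ring
        rw [e]; exact hn

/-! ### No common direction: dense forest -/

lemma norm_expI (t : ℝ) : ‖Complex.exp (t * I)‖ = 1 := Complex.norm_exp_ofReal_mul_I t

lemma local_forest {k : ℕ} (θ : Fin k → ℝ) (x : Fin k → ℂ) (h : ¬ CommonDirection θ) {ε : ℝ}
    (hε : 0 < ε) {u : ℂ} (hu : ‖u‖ = 1) :
    ∃ V : ℝ, 0 < V ∧ ∀ᶠ u' in 𝓝 u, ∀ a : ℂ, ∃ s : ℝ, 0 ≤ s ∧ s ≤ V ∧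
      ∃ y ∈ TBG θ x, dist (a + s * u') y ≤ ε := by
  have hu0 : u ≠ 0 := by rintro rfl; simp at hu
  have : ∃ i : Fin k, ∀ z ∈ Lam, ∀ r : ℝ, u ≠ r * (Complex.exp (θ i * I) * z) := by
    by_contra hcon
    push Not at hcon
    exact h ⟨u, hu0, hcon⟩
  obtain ⟨i, hi⟩ := this
  set e : ℂ := Complex.exp (θ i * I) with he
  have hne : ‖e‖ = 1 := norm_expI _
  have he0 : e ≠ 0 := Complex.exp_ne_zero _
  obtain ⟨V, hV, hV'⟩ := line_dense (u := e⁻¹ * u)
    (fun z hz r hr => hi z hz r (by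
      have := congrArg (e * ·) hr
      simp only [← mul_assoc, mul_inv_cancel₀ he0, one_mul] at this
      rw [this]; ring)) (half_pos hε)
  refine ⟨V, hV, ?_⟩
  have hnb : ∀ᶠ u' in 𝓝 u, dist u' u < ε / (2 * V) := Metric.ball_mem_nhds _ (by positivity)
  filter_upwards [hnb] with u' hu' a
  obtain ⟨s, hs0, hs1, z, hz, hd⟩ := hV' (e⁻¹ * (a - x i))
  refine ⟨s, hs0, hs1, e * z + x i, ⟨i, z, hz, rfl⟩, ?_⟩
  have h1 : dist (a + s * u) (e * z + x i) ≤ ε / 2 := by
    rw [dist_eq_norm] at hd ⊢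
    have : a + s * u - (e * z + x i) = e * (e⁻¹ * (a - x i) + s * (e⁻¹ * u) - z) := by
      field_simp; ring
    rw [this, norm_mul, hne, one_mul]; exact hd
  have h2 : dist (a + s * u') (a + s * u) ≤ ε / 2 := by
    rw [dist_eq_norm]
    have : a + s * u' - (a + s * u) = (s : ℂ) * (u' - u) := by ring
    rw [this, norm_mul, Complex.norm_real, Real.norm_of_nonneg hs0, ← dist_eq_norm]
    have h3 : s * dist u' u ≤ V * (ε / (2 * V)) := by
      apply mul_le_mul hs1 hu'.le dist_nonneg hV.le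
    have h4 : V * (ε / (2 * V)) = ε / 2 := by field_simp
    linarith
  linarith [dist_triangle (a + s * u') (a + s * u) (e * z + x i)]

lemma forest_of_not_common {k : ℕ} (θ : Fin k → ℝ) (x : Fin k → ℂ) (h : ¬ CommonDirection θ) :
    IsDenseForest (TBG θ x) := by
  have key : ∀ ε : ℝ, 0 < ε → ∃ V : ℝ, 0 < V ∧ ∀ a u : ℂ, ‖u‖ = 1 → ∃ s : ℝ, 0 ≤ s ∧ s ≤ V ∧
      ∃ y ∈ TBG θ x, dist (a + s * u) y ≤ ε := by
    intro ε hε
    have hK : IsCompact (Metric.sphere (0 : ℂ) 1) := isCompact_sphere _ _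
    choose! W hW hW' using fun (u : ℂ) (hu : ‖u‖ = 1) => local_forest θ x h hε hu
    obtain ⟨t, ht, hcov⟩ := hK.elim_nhds_subcover
      (fun u => {u' | ∀ a : ℂ, ∃ s : ℝ, 0 ≤ s ∧ s ≤ W u ∧
        ∃ y ∈ TBG θ x, dist (a + s * u') y ≤ ε})
      (fun u hu => hW' u (by simpa using hu))
    refine ⟨∑ u ∈ t, W u + 1, ?_, fun a u hu => ?_⟩
    · have : 0 ≤ ∑ u ∈ t, W u := Finset.sum_nonneg fun u hu =>
        (hW u (by simpa using ht u hu)).le
      linarith
    · have hmem : u ∈ Metric.sphere (0 : ℂ) 1 := by simpa using hu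
      obtain ⟨v, hv, hv'⟩ := mem_iUnion₂.1 (hcov hmem)
      obtain ⟨s, h0, h1, h2⟩ := hv' a
      refine ⟨s, h0, ?_, h2⟩
      have : W v ≤ ∑ u ∈ t, W u := Finset.single_le_sum
        (fun u hu => (hW u (by simpa using ht u hu)).le) hv
      linarith
  choose! V hV hV' using key
  exact ⟨V, fun ε h0 _ => ⟨hV ε h0, hV' ε h0⟩⟩

/-! ### Common direction: not a dense forest -/

lemma not_forest_of_common {k : ℕ} (θ : Fin k → ℝ) (x : Fin k → ℂ) (h : CommonDirection θ) :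
    ¬ IsDenseForest (TBG θ x) := by
  obtain ⟨v, hv, hvi⟩ := h
  -- normalise the direction
  set u : ℂ := (‖v‖⁻¹ : ℝ) * v with hu
  have hnv : 0 < ‖v‖ := norm_pos_iff.2 hv
  have hu1 : ‖u‖ = 1 := by
    rw [hu, norm_mul, Complex.norm_real, Real.norm_of_nonneg (by positivity),
      inv_mul_cancel₀ hnv.ne']
  -- the height function
  set H : ℂ → ℝ := fun z => (starRingEnd ℂ u * z).im with hH
  have hHadd : ∀ z w, H (z + w) = H z + H w := by
    intro z w; simp only [hH, mul_add, Complex.add_im]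
  have hHu : ∀ s : ℝ, H (s * u) = 0 := by
    intro s
    have : starRingEnd ℂ u * (s * u) = s * (u * starRingEnd ℂ u) := by ring
    simp only [hH, this, Complex.mul_conj, Complex.im_ofReal_mul, Complex.ofReal_im, mul_zero]
  have hHle : ∀ z, |H z| ≤ ‖z‖ := by
    intro z
    refine (Complex.abs_im_le_norm _).trans ?_
    rw [norm_mul, Complex.norm_conj, hu1, one_mul]
  -- heights of the points of Y
  have hheights : ∀ i : Fin k, ∃ c d : ℝ, ∀ z ∈ Lam, ∃ n : ℤ,
      H (Complex.exp (θ i * I) * z + x i) = c + n * d := by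
    intro i
    obtain ⟨w, ⟨p, q, hw⟩, r, hr⟩ := hvi i
    refine ⟨H (x i), ‖v‖⁻¹ * r * (Real.sqrt 3 / 2), ?_⟩
    rintro z ⟨m, n, hz⟩
    refine ⟨p * n - q * m, ?_⟩
    rw [hHadd, add_comm]
    congr 1
    have e1 : starRingEnd ℂ u * (Complex.exp (θ i * I) * z) =
        ((‖v‖⁻¹ * r : ℝ) : ℂ) * (starRingEnd ℂ w * z) := by
      have h1 : starRingEnd ℂ (Complex.exp (θ i * I)) * Complex.exp (θ i * I) = 1 := by
        rw [← Complex.normSq_eq_conj_mul_self, Complex.normSq_eq_norm_sq, norm_expI]; simp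
      rw [hu, hr]
      simp only [map_mul, Complex.conj_ofReal]
      push_cast
      linear_combination ((‖((r : ℂ) * (Complex.exp (θ i * I) * w))‖ : ℂ)⁻¹ * r * starRingEnd ℂ w * z) * h1
    simp only [hH, e1, Complex.im_ofReal_mul]
    rw [hw, hz]
    have := sqrt3
    simp only [map_add, map_mul, Complex.mul_im, Complex.add_re, Complex.add_im, Complex.conj_re,
      Complex.conj_im, Complex.mul_re, om, Complex.intCast_re, Complex.intCast_im]
    push_cast
    ring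
  choose c d hcd using hheights
  -- a height not in the union of the progressions
  set D : Set ℝ := ⋃ i : Fin k, range fun n : ℤ => c i + n * d i with hD
  have hDc : D.Countable := countable_iUnion fun i => countable_range _
  have hDcl : IsClosed D := by
    refine isClosed_iUnion_of_finite fun i => ?_
    by_cases hdi : d i = 0
    · have : (range fun n : ℤ => c i + n * d i) = {c i} := by
        ext t; simp [hdi]
      rw [this]; exact isClosed_singleton
    · have h1 : IsClosed (range ((↑) : ℤ → ℝ)) := Int.isClosedEmbedding_coe_real.isClosed_range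
      have h2 : (range fun n : ℤ => c i + n * d i) =
          (fun t : ℝ => (t - c i) / d i) ⁻¹' range ((↑) : ℤ → ℝ) := by
        ext t
        simp only [mem_range, mem_preimage]
        constructor
        · rintro ⟨n, rfl⟩
          exact ⟨n, by field_simp; ring⟩
        · rintro ⟨n, hn⟩
          refine ⟨n, ?_⟩
          rw [hn]; field_simp; ring
      rw [h2]
      exact h1.preimage (by fun_prop)
  obtain ⟨t, ht⟩ : ∃ t : ℝ, t ∉ D := by
    by_contra hcon
    push Not at hcon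
    exact not_countable_univ (α := ℝ) (hDc.mono fun t _ => hcon t)
  obtain ⟨ρ, hρ, hball⟩ := Metric.isOpen_iff.1 hDcl.isOpen_compl t ht
  rintro ⟨V, hV⟩
  set ε : ℝ := min (ρ / 2) (1 / 2) with hε
  have hε0 : 0 < ε := lt_min (by linarith) (by norm_num)
  have hε1 : ε < 1 := lt_of_le_of_lt (min_le_right _ _) (by norm_num)
  have hερ : ε < ρ := lt_of_le_of_lt (min_le_left _ _) (by linarith)
  obtain ⟨-, hseg⟩ := hV ε hε0 hε1
  obtain ⟨s, -, -, y, ⟨i, z, hz, rfl⟩, hy⟩ := hseg ((t : ℂ) * (I * u)) u hu1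
  obtain ⟨n, hn⟩ := hcd i z hz
  have h1 : H ((t : ℂ) * (I * u) + s * u) = t := by
    rw [hHadd, hHu, add_zero]
    have : starRingEnd ℂ u * (t * (I * u)) = t * ((u * starRingEnd ℂ u) * I) := by ring
    simp only [hH, this]
    rw [Complex.mul_conj, Complex.normSq_eq_norm_sq, hu1]
    simp
  have h2 : |t - (c i + n * d i)| ≤ ε := by
    have e : t - (c i + n * d i) = H ((t : ℂ) * (I * u) + s * u -
        (Complex.exp (θ i * I) * z + x i)) := by
      have h3 := hHadd ((t : ℂ) * (I * u) + s * u - (Complex.exp (θ i * I) * z + x i))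
        (Complex.exp (θ i * I) * z + x i)
      rw [sub_add_cancel, h1, hn] at h3
      linarith
    rw [e]
    refine (hHle _).trans ?_
    rw [← dist_eq_norm]; exact hy
  have h3 : c i + n * d i ∈ Metric.ball t ρ := by
    rw [Metric.mem_ball, dist_comm, Real.dist_eq]
    exact lt_of_le_of_lt h2 hερ
  exact hball h3 (mem_iUnion.2 ⟨i, n, rfl⟩)

/-! ### Almost every choice -/

lemma Lam_countable : Lam.Countable := by
  have : Lam = range fun x : ℤ × ℤ => (x.1 + x.2 * om : ℂ) := by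
    ext z
    constructor
    · rintro ⟨m, n, rfl⟩; exact ⟨(m, n), rfl⟩
    · rintro ⟨⟨m, n⟩, rfl⟩; exact ⟨m, n, rfl⟩
  rw [this]; exact countable_range _

/-- angle differences for which two lattices may have a common direction -/
def Bad : Set ℝ := ⋃ z ∈ Lam, ⋃ w ∈ Lam, ⋃ σ ∈ ({1, -1} : Set ℝ),
  {t : ℝ | Complex.exp (t * I) = σ * (‖z‖ * w) / (‖w‖ * z)}

lemma countable_exp (c : ℂ) : {t : ℝ | Complex.exp (t * I) = c}.Countable := by
  rcases Set.eq_empty_or_nonempty {t : ℝ | Complex.exp (t * I) = c} with h | ⟨t₀, h₀⟩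
  · rw [h]; exact countable_empty
  · refine (countable_range fun n : ℤ => t₀ + n * (2 * Real.pi)).mono fun t ht => ?_
    have h1 : Complex.exp (t * I) = Complex.exp (t₀ * I) := by
      have a : Complex.exp (t * I) = c := ht
      have b : Complex.exp (t₀ * I) = c := h₀
      rw [a, b]
    obtain ⟨n, hn⟩ := Complex.exp_eq_exp_iff_exists_int.1 h1
    refine ⟨n, ?_⟩
    have := congrArg Complex.im hn
    simpa using this.symm

lemma bad_countable : Bad.Countable := by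
  refine Lam_countable.biUnion fun z _ => Lam_countable.biUnion fun w _ => ?_
  exact (Set.toFinite _).countable.biUnion fun σ _ => countable_exp _

lemma bad_of_common {k : ℕ} {θ : Fin k → ℝ} (h : CommonDirection θ) (i j : Fin k) :
    θ j - θ i ∈ Bad := by
  obtain ⟨v, hv, hvi⟩ := h
  obtain ⟨w, hw, r, hr⟩ := hvi i
  obtain ⟨z, hz, s, hs⟩ := hvi j
  have hr0 : (r : ℂ) ≠ 0 := by rintro h; rw [h, zero_mul] at hr; exact hv hr
  have hs0 : (s : ℂ) ≠ 0 := by rintro h; rw [h, zero_mul] at hs; exact hv hs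
  have hw0 : w ≠ 0 := by rintro h; rw [h, mul_zero, mul_zero] at hr; exact hv hr
  have hz0 : z ≠ 0 := by rintro h; rw [h, mul_zero, mul_zero] at hs; exact hv hs
  have e1 : Complex.exp ((θ j - θ i : ℝ) * I) = r * w / (s * z) := by
    have h1 : Complex.exp ((θ j - θ i : ℝ) * I) = Complex.exp (θ j * I) / Complex.exp (θ i * I) := by
      rw [← Complex.exp_sub]; push_cast; ring_nf
    rw [h1, div_eq_div_iff (Complex.exp_ne_zero _) (mul_ne_zero hs0 hz0)]
    linear_combination hr - hs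
  have hnw : (‖w‖ : ℂ) ≠ 0 := by exact_mod_cast norm_ne_zero_iff.2 hw0
  have hnz : (‖z‖ : ℂ) ≠ 0 := by exact_mod_cast norm_ne_zero_iff.2 hz0
  have e2 : |r| * ‖w‖ = |s| * ‖z‖ := by
    have h1 : ‖Complex.exp ((θ j - θ i : ℝ) * I)‖ = 1 := norm_expI _
    rw [e1, norm_div, norm_mul, norm_mul, Complex.norm_real, Complex.norm_real, Real.norm_eq_abs,
      Real.norm_eq_abs, div_eq_one_iff_eq] at h1
    · exact h1
    · exact mul_ne_zero (by simpa using hs0) (norm_ne_zero_iff.2 hz0)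
  have key : ∀ σ : ℝ, (r : ℂ) * ‖w‖ = σ * (s * ‖z‖) →
      Complex.exp ((θ j - θ i : ℝ) * I) = σ * (‖z‖ * w) / (‖w‖ * z) := by
    intro σ hσ
    rw [e1, div_eq_div_iff (mul_ne_zero hs0 hz0) (mul_ne_zero hnw hz0)]
    linear_combination (w * z) * hσ
  refine mem_iUnion₂.2 ⟨z, hz, mem_iUnion₂.2 ⟨w, hw, ?_⟩⟩
  have hcase : r * ‖w‖ = s * ‖z‖ ∨ r * ‖w‖ = -(s * ‖z‖) := by
    have h2 : |r * ‖w‖| = |s * ‖z‖| := by
      rw [abs_mul, abs_mul, abs_norm, abs_norm]; exact e2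
    exact abs_eq_abs.1 h2
  rcases hcase with h2 | h2
  · refine mem_iUnion₂.2 ⟨1, by simp, key 1 ?_⟩
    have : ((r * ‖w‖ : ℝ) : ℂ) = ((s * ‖z‖ : ℝ) : ℂ) := by rw [h2]
    push_cast at this ⊢
    rw [this]; ring
  · refine mem_iUnion₂.2 ⟨-1, by simp, key (-1) ?_⟩
    have : ((r * ‖w‖ : ℝ) : ℂ) = ((-(s * ‖z‖) : ℝ) : ℂ) := by rw [h2]
    push_cast at this ⊢
    rw [this]; ring

lemma ae_not_common {k : ℕ} (hk : 2 ≤ k) :
    ∀ᵐ ω : (Fin k → ℝ) × (Fin k → ℂ), ¬ CommonDirection ω.1 := by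
  set i : Fin k := ⟨0, by omega⟩
  set j : Fin k := ⟨1, by omega⟩
  let L : ((Fin k → ℝ) × (Fin k → ℂ)) →ₗ[ℝ] ℝ :=
    (LinearMap.proj (R := ℝ) (φ := fun _ : Fin k => ℝ) j -
      LinearMap.proj (R := ℝ) (φ := fun _ : Fin k => ℝ) i) ∘ₗ
        LinearMap.fst ℝ (Fin k → ℝ) (Fin k → ℂ)
  have hL : ∀ ω, L ω = ω.1 j - ω.1 i := fun ω => rfl
  have hsurj : Function.Surjective L := by
    intro t
    refine ⟨(fun l => if l = j then t else 0, 0), ?_⟩
    rw [hL]
    have : i ≠ j := by simp [i, j]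
    simp [this]
  have hae : ∀ᵐ t : ℝ, t ∈ Badᶜ := by
    have := bad_countable.ae_notMem (volume : Measure ℝ)
    exact this
  have hHaar : (volume : Measure ((Fin k → ℝ) × (Fin k → ℂ))).IsAddHaarMeasure :=
    Measure.prod.instIsAddHaarMeasure (volume : Measure (Fin k → ℝ))
      (volume : Measure (Fin k → ℂ))
  have h1 := (ae_comp_linearMap_mem_iff L (volume : Measure ((Fin k → ℝ) × (Fin k → ℂ)))
    (volume : Measure ℝ) hsurj bad_countable.measurableSet.compl).2 hae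
  filter_upwards [h1] with ω hω hc
  exact hω (bad_of_common hc i j)

/-- For all `k`, all angles and all translations, the union of rotated and translated triangular
lattices is a dense forest if and only if the lattices have no common rational direction; for
every `k ≥ 2` this holds for almost all parameters. -/
theorem result :
    (∀ (k : ℕ) (θ : Fin k → ℝ) (x : Fin k → ℂ),
      IsDenseForest (TBG θ x) ↔ ¬ CommonDirection θ) ∧
    (∀ k : ℕ, 2 ≤ k → ∀ᵐ ω : (Fin k → ℝ) × (Fin k → ℂ), IsDenseForest (TBG ω.1 ω.2)) := by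
  have h : ∀ (k : ℕ) (θ : Fin k → ℝ) (x : Fin k → ℂ),
      IsDenseForest (TBG θ x) ↔ ¬ CommonDirection θ := fun k θ x =>
    ⟨fun h1 h2 => not_forest_of_common θ x h2 h1, forest_of_not_common θ x⟩
  refine ⟨h, fun k hk => ?_⟩
  filter_upwards [ae_not_common hk] with ω hω
  exact (h k ω.1 ω.2).2 hω

end Pool.Agent.Results.MP_e7d22a_nt.TwoLattices
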